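import Pool.Agent.Y7.AN.Stm

/-!
Leibniz rule with exact binomial coefficients for the sums of squares of the partial derivatives of
a given order.
-/

set_option autoImplicit false

open MeasureTheory Set Metric Filter Topology
open scoped ContDiff

namespace Pool.Agent.Y484.AN

open H459R3.NS Pool.Agent.TH305.DR Pool.Agent.Y7.AN
open Pool.Agent.W583.MD (sm_pd pd_mul')

/-- Minkowski's inequality for finite sums of squares. -/
lemma mink0 {J : Type} [Fintype J] (a b : J → ℝ) :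
    √(∑ j, (a j + b j) ^ 2) ≤ √(∑ j, a j ^ 2) + √(∑ j, b j ^ 2) := by
  have h1 := Real.sum_mul_le_sqrt_mul_sqrt Finset.univ a b
  have ha : 0 ≤ ∑ j, a j ^ 2 := Finset.sum_nonneg fun _ _ => sq_nonneg _
  have hb : 0 ≤ ∑ j, b j ^ 2 := Finset.sum_nonneg fun _ _ => sq_nonneg _
  have h2 : ∑ j, (a j + b j) ^ 2 = ∑ j, a j ^ 2 + 2 * ∑ j, a j * b j + ∑ j, b j ^ 2 := by
    rw [Finset.mul_sum, ← Finset.sum_add_distrib, ← Finset.sum_add_distrib]
    refine Finset.sum_congr rfl fun j _ => ?_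
    ring
  apply Real.sqrt_le_iff.mpr ⟨by positivity, ?_⟩
  rw [h2]
  nlinarith [Real.sq_sqrt ha, Real.sq_sqrt hb]

/-- Minkowski's inequality for the derivatives of order `n`. -/
lemma SS_mink (n : ℕ) : ∀ {J : Type} [Fintype J] {f g : J → V → ℝ},
    (∀ j, ContDiff ℝ ∞ (f j)) → (∀ j, ContDiff ℝ ∞ (g j)) → ∀ x : V,
    √(∑ j, SS n (fun y => f j y + g j y) x) ≤ √(∑ j, SS n (f j) x) + √(∑ j, SS n (g j) x) := by
  induction n with
  | zero =>
    intro J _ f g _ _ x
    simp only [SS_zero]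
    exact mink0 _ _
  | succ n ih =>
    intro J _ f g hf hg x
    have h := ih (J := J × Fin 3) (f := fun p => pd p.2 (f p.1)) (g := fun p => pd p.2 (g p.1))
      (fun p => sm_pd (hf p.1) p.2) (fun p => sm_pd (hg p.1) p.2) x
    rw [Fintype.sum_prod_type, Fintype.sum_prod_type, Fintype.sum_prod_type] at h
    have e : ∀ j, SS (n + 1) (fun y => f j y + g j y) x =
        ∑ i, SS n (fun y => pd i (f j) y + pd i (g j) y) x := by
      intro j
      rw [SS_succ]
      refine Finset.sum_congr rfl fun i _ => ?_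
      rw [pd_add' (hf j) (hg j)]
    simp only [e]
    exact h

/-- Leibniz rule for sums of products of families. -/
lemma SS_prod (n : ℕ) : ∀ {I J₁ J₂ : Type} [Fintype I] [Fintype J₁] [Fintype J₂]
    {f : I → J₁ → V → ℝ} {g : I → J₂ → V → ℝ}, (∀ i j, ContDiff ℝ ∞ (f i j)) →
    (∀ i j, ContDiff ℝ ∞ (g i j)) → ∀ x : V,
    √(∑ p : J₁ × J₂, SS n (fun y => ∑ i, f i p.1 y * g i p.2 y) x) ≤
      ∑ a ∈ Finset.range (n + 1), (n.choose a : ℝ) *
        (√(∑ q : I × J₁, SS a (f q.1 q.2) x) * √(∑ q : I × J₂, SS (n - a) (g q.1 q.2) x)) := by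
  induction n with
  | zero =>
    intro I J₁ J₂ _ _ _ f g _ _ x
    simp only [SS_zero, zero_add, Finset.range_one, Finset.sum_singleton, Nat.choose_self,
      Nat.cast_one, one_mul, Nat.sub_self]
    rw [← Real.sqrt_mul (Finset.sum_nonneg fun _ _ => sq_nonneg _)]
    apply Real.sqrt_le_sqrt
    have h1 : ∀ p : J₁ × J₂, (∑ i, f i p.1 x * g i p.2 x) ^ 2 ≤
        (∑ i, f i p.1 x ^ 2) * ∑ i, g i p.2 x ^ 2 := fun p =>
      Finset.sum_mul_sq_le_sq_mul_sq _ _ _
    refine (Finset.sum_le_sum fun p _ => h1 p).trans (le_of_eq ?_)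
    rw [Fintype.sum_prod_type, Fintype.sum_prod_type, Fintype.sum_prod_type,
      Finset.sum_comm (f := fun i j => f i j x ^ 2), Finset.sum_comm (f := fun i j => g i j x ^ 2),
      Finset.sum_mul_sum]
  | succ n ih =>
    intro I J₁ J₂ _ _ _ f g hf hg x
    have hprod : ∀ i j₁ j₂, ContDiff ℝ ∞ (fun y => f i j₁ y * g i j₂ y) := fun i j₁ j₂ =>
      (hf i j₁).mul (hg i j₂)
    have e1 : ∀ (p : J₁ × J₂) (k : Fin 3), pd k (fun y => ∑ i, f i p.1 y * g i p.2 y) =
        fun y => (∑ i, pd k (f i p.1) y * g i p.2 y) + ∑ i, f i p.1 y * pd k (g i p.2) y := by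
      intro p k
      rw [pd_sum' Finset.univ fun i => hprod i p.1 p.2]
      funext y
      rw [← Finset.sum_add_distrib]
      refine Finset.sum_congr rfl fun i _ => ?_
      rw [pd_mul' (hf i p.1) (hg i p.2)]
      ring
    have e2 : ∑ p : J₁ × J₂, SS (n + 1) (fun y => ∑ i, f i p.1 y * g i p.2 y) x =
        ∑ r : (J₁ × J₂) × Fin 3, SS n (fun y => (∑ i, pd r.2 (f i r.1.1) y * g i r.1.2 y) +
          ∑ i, f i r.1.1 y * pd r.2 (g i r.1.2) y) x := by
      rw [Fintype.sum_prod_type (f := fun r : (J₁ × J₂) × Fin 3 => SS n (fun y =>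
        (∑ i, pd r.2 (f i r.1.1) y * g i r.1.2 y) + ∑ i, f i r.1.1 y * pd r.2 (g i r.1.2) y) x)]
      refine Finset.sum_congr rfl fun p _ => ?_
      rw [SS_succ]
      refine Finset.sum_congr rfl fun k _ => ?_
      rw [e1]
    have h1 := SS_mink n (J := (J₁ × J₂) × Fin 3)
      (f := fun r y => ∑ i, pd r.2 (f i r.1.1) y * g i r.1.2 y)
      (g := fun r y => ∑ i, f i r.1.1 y * pd r.2 (g i r.1.2) y)
      (fun r => ContDiff.sum fun i _ => (sm_pd (hf i r.1.1) r.2).mul (hg i r.1.2))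
      (fun r => ContDiff.sum fun i _ => (hf i r.1.1).mul (sm_pd (hg i r.1.2) r.2)) x
    have h2 := ih (I := I) (J₁ := J₁ × Fin 3) (J₂ := J₂) (f := fun i j => pd j.2 (f i j.1)) (g := g)
      (fun i j => sm_pd (hf i j.1) j.2) hg x
    have h3 := ih (I := I) (J₁ := J₁) (J₂ := J₂ × Fin 3) (f := f) (g := fun i j => pd j.2 (g i j.1))
      hf (fun i j => sm_pd (hg i j.1) j.2) x
    have e3 : ∑ r : (J₁ × J₂) × Fin 3, SS n (fun y => ∑ i, pd r.2 (f i r.1.1) y * g i r.1.2 y) x =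
        ∑ p : (J₁ × Fin 3) × J₂, SS n (fun y => ∑ i, pd p.1.2 (f i p.1.1) y * g i p.2 y) x := by
      rw [Fintype.sum_prod_type, Fintype.sum_prod_type, Fintype.sum_prod_type,
        Fintype.sum_prod_type]
      refine Finset.sum_congr rfl fun j₁ _ => ?_
      exact Finset.sum_comm
    have e4 : ∑ r : (J₁ × J₂) × Fin 3, SS n (fun y => ∑ i, f i r.1.1 y * pd r.2 (g i r.1.2) y) x =
        ∑ p : J₁ × (J₂ × Fin 3), SS n (fun y => ∑ i, f i p.1 y * pd p.2.2 (g i p.2.1) y) x := by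
      rw [Fintype.sum_prod_type, Fintype.sum_prod_type, Fintype.sum_prod_type]
      refine Finset.sum_congr rfl fun j₁ _ => ?_
      rw [Fintype.sum_prod_type]
    have e5 : ∀ a, ∑ q : I × (J₁ × Fin 3), SS a (pd q.2.2 (f q.1 q.2.1)) x =
        ∑ q : I × J₁, SS (a + 1) (f q.1 q.2) x := by
      intro a
      rw [Fintype.sum_prod_type, Fintype.sum_prod_type]
      refine Finset.sum_congr rfl fun i _ => ?_
      rw [Fintype.sum_prod_type]
      rfl
    have e6 : ∀ a, ∑ q : I × (J₂ × Fin 3), SS a (pd q.2.2 (g q.1 q.2.1)) x =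
        ∑ q : I × J₂, SS (a + 1) (g q.1 q.2) x := by
      intro a
      rw [Fintype.sum_prod_type, Fintype.sum_prod_type]
      refine Finset.sum_congr rfl fun i _ => ?_
      rw [Fintype.sum_prod_type]
      rfl
    rw [e3, e4] at h1
    simp only [e5] at h2
    simp only [e6] at h3
    rw [e2]
    refine h1.trans ((add_le_add h2 h3).trans (le_of_eq ?_))
    rw [Finset.sum_choose_succ_mul (fun a b => √(∑ q : I × J₁, SS a (f q.1 q.2) x) *
      √(∑ q : I × J₂, SS b (g q.1 q.2) x)) n, add_comm]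
    congr 1
    refine Finset.sum_congr rfl fun a ha => ?_
    have : n - a + 1 = n + 1 - a := by
      have := Finset.mem_range.1 ha
      omega
    rw [this]

/-- The right side, summed over all components. -/
lemma bb_leib (n : ℕ) {v : V → V} (hv : ∀ i, ContDiff ℝ ∞ (fun y => v y i)) {lam : ℕ → ℝ}
    (hl : ∀ a, 0 < lam a) (x : V) :
    ∑ j, SS n (bb v j) x ≤ (∑ a ∈ Finset.range (n + 1), lam a) *
      ∑ a ∈ Finset.range (n + 1), (n.choose a : ℝ) ^ 2 / lam a * (SV a v x * ST (n - a) v x) := by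
  have h1 := SS_prod n (I := Fin 3) (J₁ := Unit) (J₂ := Fin 3) (f := fun m _ y => v y m)
    (g := fun m j => Om m j v) (fun m _ => hv m) (fun m j => om_sm hv m j) x
  have e1 : ∑ p : Unit × Fin 3, SS n (fun y => ∑ i, v y i * Om i p.2 v y) x =
      ∑ j, SS n (bb v j) x := by
    rw [Fintype.sum_prod_type, Fintype.sum_unique]
    rfl
  have e2 : ∀ a, ∑ q : Fin 3 × Unit, SS a (fun y => v y q.1) x = SV a v x := by
    intro a
    rw [Fintype.sum_prod_type]
    simp only [Fintype.sum_unique]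
    rfl
  have e3 : ∀ a, ∑ q : Fin 3 × Fin 3, SS a (Om q.1 q.2 v) x = ST a v x := fun a => rfl
  rw [e1] at h1
  simp only [e2, e3] at h1
  have hS : 0 ≤ ∑ j, SS n (bb v j) x := Finset.sum_nonneg fun _ _ => SS_nonneg _ _ _
  have h2 := pow_le_pow_left₀ (Real.sqrt_nonneg _) h1 2
  rw [Real.sq_sqrt hS] at h2
  refine h2.trans ?_
  have h3 := Finset.sum_mul_sq_le_sq_mul_sq (Finset.range (n + 1)) (fun a => √(lam a))
    (fun a => (n.choose a : ℝ) / √(lam a) * (√(SV a v x) * √(ST (n - a) v x)))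
  have e4 : ∑ a ∈ Finset.range (n + 1), √(lam a) *
      ((n.choose a : ℝ) / √(lam a) * (√(SV a v x) * √(ST (n - a) v x))) =
      ∑ a ∈ Finset.range (n + 1), (n.choose a : ℝ) * (√(SV a v x) * √(ST (n - a) v x)) := by
    refine Finset.sum_congr rfl fun a _ => ?_
    have : √(lam a) ≠ 0 := (Real.sqrt_pos.mpr (hl a)).ne'
    field_simp
  have e5 : ∑ a ∈ Finset.range (n + 1), √(lam a) ^ 2 = ∑ a ∈ Finset.range (n + 1), lam a :=
    Finset.sum_congr rfl fun a _ => Real.sq_sqrt (hl a).le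
  have e6 : ∑ a ∈ Finset.range (n + 1),
      ((n.choose a : ℝ) / √(lam a) * (√(SV a v x) * √(ST (n - a) v x))) ^ 2 =
      ∑ a ∈ Finset.range (n + 1), (n.choose a : ℝ) ^ 2 / lam a * (SV a v x * ST (n - a) v x) := by
    refine Finset.sum_congr rfl fun a _ => ?_
    rw [mul_pow, mul_pow, div_pow, Real.sq_sqrt (hl a).le, Real.sq_sqrt (SV_nonneg _ _ _),
      Real.sq_sqrt (ST_nonneg _ _ _)]
  rw [e4, e5, e6] at h3
  exact h3

theorem t_leib : Pool.Agent.Y7.AN.S_LEIB := by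
  intro n v hv lam hl x
  have h1 : ∑ p : Fin 3 × Fin 3, ∑ m, SS n (gg v p.1 p.2 m) x
      ≤ ∑ p : Fin 3 × Fin 3, ∑ _m : Fin 3, (2 * SS n (bb v p.1) x + 2 * SS n (bb v p.2) x) :=
    Finset.sum_le_sum fun p _ => Finset.sum_le_sum fun m _ => gg_ss n hv p.1 p.2 m x
  have h2 : ∑ p : Fin 3 × Fin 3, ∑ _m : Fin 3, (2 * SS n (bb v p.1) x + 2 * SS n (bb v p.2) x)
      = 36 * ∑ j, SS n (bb v j) x := by
    rw [Fintype.sum_prod_type]
    simp only [Fin.sum_univ_three]
    ring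
  rw [h2] at h1
  refine h1.trans ?_
  rw [mul_assoc]
  exact mul_le_mul_of_nonneg_left (bb_leib n hv hl x) (by norm_num)

end Pool.Agent.Y484.AN
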